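import Pool.Agent.helper62.EN.SpecA

/-!
# Row ksy:INL of project EN (MP_07c750_an): invariance of the limit of the averages
-/

set_option autoImplicit false

open scoped Topology BoundedContinuousFunction
open MeasureTheory Filter Set

namespace Pool.Agent.EN

theorem INL_proof (h1 : SMP_stmt) : INL_stmt := by
  intro X _ _ _ _ _ _ f ρ n L a μ hf hρ hL hn ha hlim t
  haveI := hL
  haveI : TopologicalSpace.MetrizableSpace X := TopologicalSpace.metrizableSpace_of_t3_secondCountable X
  have hcont : ∀ s : ℝ, Continuous (f s) := fun s => hf.cont.comp (Continuous.prodMk continuous_const continuous_id)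
  have hcont2 : ∀ x : X, Continuous fun s : ℝ => f s x := fun x =>
    hf.cont.comp (Continuous.prodMk continuous_id continuous_const)
  haveI : IsProbabilityMeasure ((μ : Measure X).map (f t)) :=
    Measure.isProbabilityMeasure_map (hcont t).measurable.aemeasurable
  refine ext_of_forall_integral_eq_of_IsFiniteMeasure fun V => ?_
  rw [integral_map (hcont t).measurable.aemeasurable V.continuous.aestronglyMeasurable]
  have hVt : Continuous fun x => V (f t x) := V.continuous.comp (hcont t)
  let W : X →ᵇ ℝ := BoundedContinuousFunction.mkOfCompact ⟨fun x => V (f t x), hVt⟩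
  have t1 := (ProbabilityMeasure.tendsto_iff_forall_integral_tendsto.1 hlim) W
  have t2 := (ProbabilityMeasure.tendsto_iff_forall_integral_tendsto.1 hlim) V
  have hW : ∀ x, W x = V (f t x) := fun x => rfl
  simp only [hW] at t1
  have hdiff : Tendsto (fun k => (∫ x, V (f t x) ∂(a k : Measure X)) - ∫ x, V x ∂(a k : Measure X)) L (𝓝 0) := by
    have hb : Tendsto (fun k => 2 * ‖V‖ * |t| / (n k : ℝ)) L (𝓝 0) :=
      (tendsto_const_nhds (x := 2 * ‖V‖ * |t|)).div_atTop (tendsto_natCast_atTop_atTop.comp hn)
    refine squeeze_zero_norm' ?_ hb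
    filter_upwards [ha, hn.eventually_ge_atTop 1] with k hk hnk
    haveI := hρ k
    obtain ⟨-, -, -, h4⟩ := h1 X f (ρ k) hf (hρ k)
    rw [hk, h4 (fun x => V (f t x)) (n k) hVt hnk, h4 (fun x => V x) (n k) V.continuous hnk]
    obtain ⟨g, hg⟩ : ∃ g : ℝ → ℝ, g = fun s => ∫ x, V (f s x) ∂(ρ k) := ⟨_, rfl⟩
    have hgb : ∀ s, ‖g s‖ ≤ ‖V‖ := by
      intro s
      rw [hg]
      have := norm_integral_le_of_norm_le_const (μ := ρ k) (f := fun x => V (f s x)) (C := ‖V‖)
        (Eventually.of_forall fun x => V.norm_coe_le_norm _)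
      simpa using this
    have hgc : Continuous g := by
      rw [hg]
      refine continuous_of_dominated (bound := fun _ => ‖V‖) (fun s => ?_) (fun s => ?_) (integrable_const _) ?_
      · exact (V.continuous.comp (hcont s)).aestronglyMeasurable
      · exact Eventually.of_forall fun x => V.norm_coe_le_norm _
      · exact Eventually.of_forall fun x => V.continuous.comp (hcont2 x)
    have e1 : ∫ s in (0 : ℝ)..(n k), ∫ x, V (f t (f s x)) ∂(ρ k) = ∫ s in t..(t + n k), g s := by
      have e2 : ∀ s, ∫ x, V (f t (f s x)) ∂(ρ k) = g (t + s) := by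
        intro s
        rw [hg]
        refine integral_congr_ae (Eventually.of_forall fun x => ?_)
        show V (f t (f s x)) = V (f (t + s) x)
        rw [hf.add]
      simp only [e2]
      rw [intervalIntegral.integral_comp_add_left (fun s => g s) t, add_zero]
    have e3 : ∫ s in (0 : ℝ)..(n k), ∫ x, V (f s x) ∂(ρ k) = ∫ s in (0 : ℝ)..(n k), g s := by rw [hg]
    rw [e1, e3, ← mul_sub, intervalIntegral.integral_interval_sub_interval_comm (hgc.intervalIntegrable _ _)
      (hgc.intervalIntegrable _ _) (hgc.intervalIntegrable _ _), norm_mul]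
    have b1 : ‖∫ s in t..0, g s‖ ≤ ‖V‖ * |0 - t| :=
      intervalIntegral.norm_integral_le_of_norm_le_const fun s _ => hgb s
    have b2 : ‖∫ s in (t + n k)..(n k), g s‖ ≤ ‖V‖ * |(n k : ℝ) - (t + n k)| :=
      intervalIntegral.norm_integral_le_of_norm_le_const fun s _ => hgb s
    have c1 : |0 - t| = |t| := by rw [zero_sub, abs_neg]
    have c2 : |(n k : ℝ) - (t + n k)| = |t| := by
      have : (n k : ℝ) - (t + n k) = -t := by ring
      rw [this, abs_neg]
    rw [c1] at b1
    rw [c2] at b2
    have hn0 : (0 : ℝ) < n k := by exact_mod_cast hnk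
    have b3 : ‖(∫ s in t..0, g s) - ∫ s in (t + n k)..(n k), g s‖ ≤ 2 * ‖V‖ * |t| := by
      refine (norm_sub_le _ _).trans ?_
      linarith
    rw [Real.norm_of_nonneg (by positivity : (0 : ℝ) ≤ 1 / n k), div_mul_eq_mul_div, one_mul]
    exact div_le_div_of_nonneg_right b3 hn0.le
  have h5 := tendsto_nhds_unique (t1.sub t2) hdiff
  linarith

end Pool.Agent.EN
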